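import Pool.Agent.X220.FP.Cor
import Pool.Agent.X220.FP.Alg

/-!
# Sums of two almost prime twins with prescribed fractional parts

Let `P_1, …, P_s` be real polynomials of degree at most `k ≥ 1` whose vector of the coefficients of `x ^ k` is of finite
type: the distance of `h_1 α_1 + … + h_s α_s` to the nearest integer is at least `c₀ / |h| ^ τ` for all nonzero integral
vectors `h` (for example `α_1, …, α_s` are algebraic and `1, α_1, …, α_s` are linearly independent over the rational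
numbers). We consider the numbers `n`, `n + 2 sg N`, `N - n`, `N - n + 2 tg N`, for an even number `N`, for the integers `n` of an ARBITRARY short interval
`(M, M + H]` for which all the fractional parts of `P_i(n) - u_i` are less than `ρ_i`, where the `ρ_i` may be as small as
`H ^ (-δ)`.
* If `M + H ≤ H ^ B` and `N ≤ H ^ B`, where `B` is arbitrary, the number of the `n` for which all the values have a bounded
  number of prime factors, all greater than `H ^ δ`, has the expected order of magnitude.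
* The number of the `n` for which all of them are primes is at most of this order.
* The number of the `n` for which they have no prime factor up to `y` is given by an asymptotic formula.

All this is uniform in the polynomials, in `M`, in the boxes, and in the forms. The proof combines a sieve which is uniform
in the removed residue classes (in the starting files), Weyl's inequality, and Liouville's inequality for norms.
-/

set_option autoImplicit false

namespace Pool.Agent.Results.MP_c6d112_nt.FractionalParts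

open Finset Polynomial

/-- the vector `α` is of finite type, with the constants `c₀` and `τ` -/
def FiniteType {s : ℕ} (c₀ : ℝ) (τ : ℕ) (α : Fin s → ℝ) : Prop :=
  ∀ h : Fin s → ℤ, h ≠ 0 → ∀ a : ℤ, c₀ ≤ (∑ i, |(h i : ℝ)|) ^ τ * |(∑ i, h i * α i) - a|

/-- all the fractional parts of `P_i(n) - u_i` are less than `ρ_i` -/
def InBox {s : ℕ} (P : Fin s → ℝ[X]) (u ρ : Fin s → ℝ) (n : ℕ) : Prop :=
  ∀ i, Int.fract ((P i).eval (n : ℝ) - u i) < ρ i

/-- `m ≠ 0` has at most `r` prime factors, counted with multiplicity, all of them greater than `x`. -/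
def AlmostPrime (r : ℕ) (x : ℝ) (m : ℕ) : Prop :=
  m ≠ 0 ∧ m.primeFactorsList.length ≤ r ∧ ∀ q : ℕ, q.Prime → q ∣ m → x < q

/-- the first sign: `-1` if `N` is congruent to `2` modulo `3`, and `1` otherwise -/
def sg (N : ℕ) : ℤ := if N % 3 = 2 then -1 else 1

/-- the second sign: `1` if `N` is congruent to `1` modulo `3`, and `-1` otherwise -/
def tg (N : ℕ) : ℤ := if N % 3 = 1 then 1 else -1

/-- the numbers `n`, `n + 2 sg N`, `N - n`, `N - n + 2 tg N`, for an even number `N`, -/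
def form (N : ℕ) (n : ℕ) : Fin 4 → ℤ := ![(n : ℤ), n + 2 * sg N, N - n, N - n + 2 * tg N]

/-- the number of the `n` in `(M, M + H]` with the property `R` for which all the values are almost primes -/
noncomputable def almost (N : ℕ) (r : ℕ) (x : ℝ) (M H : ℕ) (R : ℕ → Prop) : ℕ :=
  Set.ncard {n : ℕ | M < n ∧ n ≤ M + H ∧ R n ∧ ∀ i, AlmostPrime r x (form N n i).natAbs}

/-- the number of the `n` in `(M, M + H]` with the property `R` for which all the values are primes -/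
noncomputable def primes (N : ℕ) (M H : ℕ) (R : ℕ → Prop) : ℕ :=
  Set.ncard {n : ℕ | M < n ∧ n ≤ M + H ∧ R n ∧ ∀ i, (form N n i).natAbs.Prime}

/-- the number of the `n` in `(M, M + H]` with the property `R` for which the values have no prime factor up to `y` -/
noncomputable def rough (N : ℕ) (y M H : ℕ) (R : ℕ → Prop) : ℕ :=
  Set.ncard {n : ℕ | M < n ∧ n ≤ M + H ∧ R n ∧ ∀ q : ℕ, q.Prime → q ≤ y → ∀ i, ¬ (q : ℤ) ∣ form N n i}

/-- the product over the primes `q ≤ y` of `1 - ν(q) / q`, where `ν(q)` is the number of the residues `n` modulo `q` for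
which one of the values is divisible by `q` -/
noncomputable def V (N : ℕ) (y : ℕ) : ℝ :=
  ∏ q ∈ (Icc 1 y).filter Nat.Prime, (1 - (Set.ncard {n : ℕ | n < q ∧ ∃ i, (q : ℤ) ∣ form N n i} : ℝ) / q)

/-- the bounds for the interval `(M, M + H]` and the property `R`, with the expected number `X` -/
def Bounds (N : ℕ) (T r : ℕ) (δ c c' C : ℝ) (B M H : ℕ) (R : ℕ → Prop) (X : ℝ) : Prop :=
  (M + H ≤ T ^ B → N ≤ T ^ B → c * (X * V N T) ≤ almost N r ((T : ℝ) ^ δ) M H R ∧
    c' * X / Real.log T ^ 4 ≤ almost N r ((T : ℝ) ^ δ) M H R) ∧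
  (primes N M H R : ℝ) ≤ C * (X * V N T)

/-- the asymptotic formula for the interval `(M, M + H]` and the property `R`, with the expected number `X` -/
def Rough (N : ℕ) (η : ℝ) (M H y : ℕ) (R : ℕ → Prop) (X : ℝ) : Prop :=
  |(rough N y M H R : ℝ) - X * V N y| ≤ η * (X * V N y)

/-- the coefficients of the forms -/
def ca : Fin 4 → ℤ := ![1, 1, -1, -1]

/-- the constants of the forms -/
def cb (N : ℕ) : Fin 4 → ℤ := ![0, 2 * sg N, (N : ℤ), (N : ℤ) + 2 * tg N]

lemma form_eq (N : ℕ) (n : ℕ) (i : Fin 4) : ca i * (n : ℤ) + cb N i = form N n i := by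
  fin_cases i
  · show (1) * (n : ℤ) + (0) = (n : ℤ)
    ring
  · show (1) * (n : ℤ) + (2 * sg N) = n + 2 * sg N
    ring
  · show (-1) * (n : ℤ) + ((N : ℤ)) = N - n
    ring
  · show (-1) * (n : ℤ) + ((N : ℤ) + 2 * tg N) = N - n + 2 * tg N
    ring

lemma V_eq (N : ℕ) (y : ℕ) : Pool.Agent.X55.Fam.VL ca (cb N) y = V N y := by
  unfold Pool.Agent.X55.Fam.VL V
  simp only [form_eq]

lemma ca_ne (i : Fin 4) : ca i ≠ 0 := by
  fin_cases i <;> simp [ca]

lemma sg1 (N : ℕ) : sg N = 1 ∨ sg N = -1 := by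
  unfold sg; split_ifs <;> simp

lemma sg2 (N : ℕ) : tg N = 1 ∨ tg N = -1 := by
  unfold tg; split_ifs <;> simp

lemma adm {N : ℕ} (hN : Even N) (q : ℕ) (hq : q.Prime) : ∃ n : ℕ, ∀ i, ¬ (q : ℤ) ∣ ca i * (n : ℤ) + cb N i := by
  have key : ∃ n : ℕ, ∀ i, ¬ ((3 : ℕ) : ℤ) ∣ form N n i := by
    have h3 : N % 3 = 0 ∨ N % 3 = 1 ∨ N % 3 = 2 := by omega
    rcases h3 with h | h | h
    · have e1 : sg N = 1 := by unfold sg; rw [if_neg (by omega)]
      have e2 : tg N = -1 := by unfold tg; rw [if_neg (by omega)]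
      refine ⟨2, fun i => ?_⟩
      unfold form
      rw [e1, e2]
      fin_cases i
      · show ¬ ((3 : ℕ) : ℤ) ∣ ((2 : ℕ) : ℤ)
        omega
      · show ¬ ((3 : ℕ) : ℤ) ∣ ((2 : ℕ) : ℤ) + 2 * 1
        omega
      · show ¬ ((3 : ℕ) : ℤ) ∣ (N : ℤ) - ((2 : ℕ) : ℤ)
        omega
      · show ¬ ((3 : ℕ) : ℤ) ∣ (N : ℤ) - ((2 : ℕ) : ℤ) + 2 * (-1)
        omega
    · have e1 : sg N = 1 := by unfold sg; rw [if_neg (by omega)]
      have e2 : tg N = 1 := by unfold tg; rw [if_pos (by omega)]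
      refine ⟨2, fun i => ?_⟩
      unfold form
      rw [e1, e2]
      fin_cases i
      · show ¬ ((3 : ℕ) : ℤ) ∣ ((2 : ℕ) : ℤ)
        omega
      · show ¬ ((3 : ℕ) : ℤ) ∣ ((2 : ℕ) : ℤ) + 2 * 1
        omega
      · show ¬ ((3 : ℕ) : ℤ) ∣ (N : ℤ) - ((2 : ℕ) : ℤ)
        omega
      · show ¬ ((3 : ℕ) : ℤ) ∣ (N : ℤ) - ((2 : ℕ) : ℤ) + 2 * 1
        omega
    · have e1 : sg N = -1 := by unfold sg; rw [if_pos (by omega)]
      have e2 : tg N = -1 := by unfold tg; rw [if_neg (by omega)]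
      refine ⟨1, fun i => ?_⟩
      unfold form
      rw [e1, e2]
      fin_cases i
      · show ¬ ((3 : ℕ) : ℤ) ∣ ((1 : ℕ) : ℤ)
        omega
      · show ¬ ((3 : ℕ) : ℤ) ∣ ((1 : ℕ) : ℤ) + 2 * (-1)
        omega
      · show ¬ ((3 : ℕ) : ℤ) ∣ (N : ℤ) - ((1 : ℕ) : ℤ)
        omega
      · show ¬ ((3 : ℕ) : ℤ) ∣ (N : ℤ) - ((1 : ℕ) : ℤ) + 2 * (-1)
        omega
  obtain ⟨n3, hn3⟩ := key
  simp only [form_eq]
  rcases Nat.lt_or_ge q 5 with h5 | h5
  · have : q = 2 ∨ q = 3 := by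
      interval_cases q
      · exact absurd hq (by norm_num)
      · exact absurd hq (by norm_num)
      · exact Or.inl rfl
      · exact Or.inr rfl
      · exact absurd hq (by norm_num)
    rcases this with rfl | rfl
    · obtain ⟨t, ht⟩ := hN
      refine ⟨1, fun i => ?_⟩
      fin_cases i
      · show ¬ ((2 : ℕ) : ℤ) ∣ ((1 : ℕ) : ℤ)
        omega
      · show ¬ ((2 : ℕ) : ℤ) ∣ ((1 : ℕ) : ℤ) + 2 * sg N
        omega
      · show ¬ ((2 : ℕ) : ℤ) ∣ (N : ℤ) - ((1 : ℕ) : ℤ)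
        omega
      · show ¬ ((2 : ℕ) : ℤ) ∣ (N : ℤ) - ((1 : ℕ) : ℤ) + 2 * tg N
        omega
    · exact ⟨n3, hn3⟩
  · by_contra hcon
    push Not at hcon
    choose u hu using hcon
    obtain ⟨x, hx, y, hy, hxy, he⟩ := Finset.exists_ne_map_eq_of_card_lt_of_maps_to
      (s := range 5) (t := (univ : Finset (Fin 4))) (by simp) (f := u) (fun a _ => Finset.mem_coe.2 (mem_univ (u a)))
    have h1 := hu x
    have h2 := hu y
    rw [← he] at h2
    have h3 : (q : ℤ) ∣ (x : ℤ) - y := by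
      generalize u x = i at h1 h2
      fin_cases i
      · have := dvd_sub h1 h2
        have e : form N x 0 - form N y 0 = (x : ℤ) - y := by
          show (x : ℤ) - y = _
          ring
        rw [← e]
        exact this
      · have := dvd_sub h1 h2
        have e : form N x 1 - form N y 1 = (x : ℤ) - y := by
          show ((x : ℤ) + 2 * sg N) - (y + 2 * sg N) = _
          ring
        rw [← e]
        exact this
      · have := dvd_sub h2 h1
        have e : form N y 2 - form N x 2 = (x : ℤ) - y := by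
          show ((N : ℤ) - y) - (N - x) = _
          ring
        rw [← e]
        exact this
      · have := dvd_sub h2 h1
        have e : form N y 3 - form N x 3 = (x : ℤ) - y := by
          show ((N : ℤ) - y + 2 * tg N) - (N - x + 2 * tg N) = _
          ring
        rw [← e]
        exact this
    have hx5 := mem_range.1 hx
    have hy5 := mem_range.1 hy
    obtain ⟨w, hw⟩ := h3
    have hw0 : w = 0 := by
      by_contra h0
      have h6 : (1 : ℤ) ≤ |w| := Int.one_le_abs h0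
      have h7 : |(x : ℤ) - y| = q * |w| := by rw [hw, abs_mul, Nat.abs_cast]
      have h8 : |(x : ℤ) - y| < 5 := by
        rw [abs_lt]
        constructor <;> omega
      have h9 : (5 : ℤ) ≤ q := by exact_mod_cast h5
      nlinarith
    rw [hw0, mul_zero] at hw
    omega

lemma conv {N : ℕ} {T r : ℕ} {δ c C c1 : ℝ} {B M H : ℕ} {R : ℕ → Prop} {X : ℝ} (hT : 3 ≤ T)
    (hc : 0 < c) (hX : 0 ≤ X) (hlo : c1 / Real.log T ^ 4 ≤ V N T)
    (h : Pool.Agent.X55.Fam.BothL ca (cb N) T r δ c C (B + 2) M H R X) :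
    Bounds N T r δ c (c * c1) C B M H R X := by
  obtain ⟨h1, h2⟩ := h
  unfold Pool.Agent.X55.Fam.LoT at h1
  unfold Pool.Agent.X55.Fam.UpL at h2
  rw [V_eq] at h1 h2
  simp only [form_eq] at h1 h2
  have hT1 : 1 ≤ T := by omega
  have hTB : 1 ≤ T ^ B := Nat.one_le_pow _ _ hT1
  have hBB : 9 * T ^ B ≤ T ^ (B + 2) := by
    rw [pow_add, mul_comm]
    exact Nat.mul_le_mul_left _ (by nlinarith)
  refine ⟨fun hMH hs0 => ?_, h2⟩
  have k1 := h1 (by omega) (fun i => by
    fin_cases i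
    · show (1 : ℤ).natAbs ≤ _
      simp only [Int.natAbs_one]
      omega
    · show (1 : ℤ).natAbs ≤ _
      simp only [Int.natAbs_one]
      omega
    · show (-1 : ℤ).natAbs ≤ _
      simp only [Int.natAbs_neg, Int.natAbs_one]
      omega
    · show (-1 : ℤ).natAbs ≤ _
      simp only [Int.natAbs_neg, Int.natAbs_one]
      omega) (fun i => by
    have hs1 := sg1 N
    have hs2 := sg2 N
    fin_cases i
    · show (0 : ℤ).natAbs ≤ _
      simp
    · show (2 * sg N : ℤ).natAbs ≤ _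
      omega
    · show ((N : ℤ)).natAbs ≤ _
      omega
    · show ((N : ℤ) + 2 * tg N).natAbs ≤ _
      omega)
  refine ⟨k1, le_trans ?_ k1⟩
  calc c * c1 * X / Real.log T ^ 4 = c * (X * (c1 / Real.log T ^ 4)) := by ring
    _ ≤ _ := by gcongr

theorem result : (∀ (s k τ : ℕ) (c₀ : ℝ), 1 ≤ k → 0 < c₀ →
    (∀ B : ℕ, ∃ (r : ℕ) (δ c c' C : ℝ) (H₀ : ℕ), 0 < δ ∧ 0 < c ∧ 0 < c' ∧ 0 < C ∧
      ∀ H : ℕ, H₀ ≤ H → ∀ P : Fin s → ℝ[X], (∀ i, (P i).natDegree ≤ k) → FiniteType c₀ τ (fun i => (P i).coeff k) →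
      ∀ u ρ : Fin s → ℝ, (∀ i, (H : ℝ) ^ (-δ) ≤ ρ i ∧ ρ i ≤ 1) → ∀ N : ℕ, Even N → ∀ M : ℕ, M + H ≤ N →
      Bounds N H r δ c c' C B M H (InBox P u ρ) (H * ∏ i, ρ i)) ∧
    (∀ η : ℝ, 0 < η → ∃ (δ : ℝ) (H₀ : ℕ), 0 < δ ∧
      ∀ H : ℕ, H₀ ≤ H → ∀ P : Fin s → ℝ[X], (∀ i, (P i).natDegree ≤ k) → FiniteType c₀ τ (fun i => (P i).coeff k) →
      ∀ u ρ : Fin s → ℝ, (∀ i, (H : ℝ) ^ (-δ) ≤ ρ i ∧ ρ i ≤ 1) → ∀ N : ℕ, Even N → ∀ M : ℕ, M + H ≤ N →
      ∀ y : ℕ, 3 ≤ y → (y : ℝ) ≤ (H : ℝ) ^ δ → Rough N η M H y (InBox P u ρ) (H * ∏ i, ρ i))) ∧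
    -- algebraic numbers
    (∀ (s : ℕ) (α : Fin s → ℝ), (∀ i, IsAlgebraic ℚ (α i)) →
      (∀ (h : Fin s → ℤ) (a : ℤ), ∑ i, (h i : ℝ) * α i = a → h = 0) →
      ∃ (c₀ : ℝ) (τ : ℕ), 0 < c₀ ∧ FiniteType c₀ τ α) := by
  classical
  refine ⟨fun s k τ c₀ hk hc₀ => ⟨?_, ?_⟩, fun s α hα hind => Pool.Agent.X220.FP.liouville_vec s α hα hind⟩
  · intro B
    obtain ⟨r, δ, c, C, H₀, hδ, hc, hC, h⟩ := Pool.Agent.X220.FP.fp_lin s k τ hk c₀ hc₀ 4 (by norm_num) (B + 2)
    obtain ⟨c1, hc1, hlo⟩ := Pool.Agent.X55.Fam.VQ_low 4 (by norm_num)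
    refine ⟨r, δ, c, c * c1, C, max H₀ 3, hδ, hc, by positivity, hC, ?_⟩
    intro H hH P hP hFT u ρ hρ N hcond M _
    have h3 : 3 ≤ H := (le_max_right _ _).trans hH
    have hX : 0 ≤ (H : ℝ) * ∏ i, ρ i := mul_nonneg (Nat.cast_nonneg _)
      (prod_nonneg fun i _ => le_trans (by positivity) (hρ i).1)
    have had := adm hcond
    exact conv h3 hc hX (by
      rw [← V_eq, Pool.Agent.X55.Fam.VL_eq]
      exact hlo _ (Pool.Agent.X55.Fam.adm_lin ca (cb N) had) H h3)
      (h H ((le_max_left _ _).trans hH) ca (cb N) ca_ne had P hP hFT u ρ hρ M)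
  · intro η hη
    obtain ⟨δ, H₀, hδ, h⟩ := Pool.Agent.X220.FP.fp_linA s k τ hk c₀ hc₀ 4 (by norm_num) η hη
    refine ⟨δ, H₀, hδ, ?_⟩
    intro H hH P hP hFT u ρ hρ N hcond M _ y hy hyH
    have key := h H hH ca (cb N) (adm hcond) P hP hFT u ρ hρ M y hy hyH
    unfold Pool.Agent.X55.Fam.AsL at key
    rw [V_eq] at key
    simp only [form_eq] at key
    exact key

end Pool.Agent.Results.MP_c6d112_nt.FractionalParts
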