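import Pool.Agent.X15.SysS.Iso

/-!
# Sums `N = p + q` of two primes with `p + h` and `q + k` prime, for most triples `(N, h, k)`

For all but an arbitrarily small proportion of the triples `(N, h, k)` of positive integers up to `x` without local
obstruction there are at least `c x / (log x) ^ 4` representations `N = p + q` with four primes `p`, `q`, `p + h`,
`q + k`; moreover the primes `p` can be taken isolated except for `p + h`, in fact without any other prime at distance
at most `Λ log p`, where `Λ` is arbitrarily large.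

The theorem rests on the library development Pool.Agent.TH882, extended to forms with signs in Pool.Agent.X15.SysS.
-/

set_option autoImplicit false

open Finset Filter Topology

namespace Pool.Agent.Results.MP_c6d112_nt.MostTriples

/-- `p` is a prime, and no other prime is at distance at most `R` from `p`. -/
def IsolatedPrime (R : ℝ) (p : ℕ) : Prop := p.Prime ∧ ∀ q : ℕ, q.Prime → |(q : ℝ) - p| ≤ R → q = p

/-- No local obstruction: for every prime `l` there is an integer `y` such that `l` divides none of `y`, `y + h`,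
`N - y`, `N + k - y`. -/
def Possible (N h k : ℕ) : Prop := ∀ l : ℕ, l.Prime → ∃ y : ℤ, ¬ (l : ℤ) ∣ y ∧ ¬ (l : ℤ) ∣ y + h ∧
  ¬ (l : ℤ) ∣ (N : ℤ) - y ∧ ¬ (l : ℤ) ∣ (N : ℤ) + k - y

/-- The primes `p` without another prime at distance at most `Λ log p` such that `p + h` is prime and `N = p + q` with a
prime `q` for which `q + k` is prime. -/
def summands (Λ : ℝ) (N h k : ℕ) : Set ℕ :=
  {p : ℕ | IsolatedPrime (Λ * Real.log p) p ∧ (p + h).Prime ∧
    ∃ q : ℕ, N = p + q ∧ q.Prime ∧ (q + k).Prime}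

/-- The triples `(N, h, k)` of positive integers `≤ x` without local obstruction and with fewer than
`c x / (log x) ^ 4` such primes. -/
def exceptions (Λ c : ℝ) (x : ℕ) : Set (ℕ × ℕ × ℕ) :=
  {u : ℕ × ℕ × ℕ | (1 ≤ u.1 ∧ u.1 ≤ x) ∧ (1 ≤ u.2.1 ∧ u.2.1 ≤ x) ∧ (1 ≤ u.2.2 ∧ u.2.2 ≤ x) ∧
    Possible u.1 u.2.1 u.2.2 ∧ ((summands Λ u.1 u.2.1 u.2.2).ncard : ℝ) < c * (x / Real.log x ^ 4)}

lemma summands_finite (Λ : ℝ) (N h k : ℕ) : (summands Λ N h k).Finite := by
  apply (Set.finite_Iic N).subset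
  rintro p ⟨-, -, q, h1, -, -⟩
  rw [Set.mem_Iic]
  omega

/-- **Sums of two primes with prescribed shifts, for most triples.** Let `Λ > 0` and `κ > 0`. There are `c > 0` and `x₀`
such that for all `x ≥ x₀` and for all triples `(N, h, k)` of positive integers `≤ x` without local obstruction, with at
most `κ x ^ 3` exceptions, there are at least `c x / (log x) ^ 4` representations `N = p + q` with primes `p`, `q`,
`p + h`, `q + k`, where no other prime is at distance at most `Λ log p` from `p`. -/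
theorem result (Λ κ : ℝ) (hΛ : 0 < Λ) (hκ : 0 < κ) :
    ∃ c : ℝ, 0 < c ∧ ∃ x₀ : ℕ, ∀ x : ℕ, x₀ ≤ x →
      ((exceptions Λ c x).ncard : ℝ) ≤ κ * (x : ℝ) ^ 3 := by
  classical
  set σ : Fin 3 → ℤ := ![1, -1, -1] with hσd
  have hs0 : σ 0 = 1 := rfl
  have hs1 : σ 1 = -1 := rfl
  have hs2 : σ 2 = -1 := rfl
  have hf3 : ∀ P : Fin 3 → Prop, P 0 → P 1 → P 2 → ∀ j, P j := by
    intro P h0 h1 h2 j
    fin_cases j
    · exact h0
    · exact h1
    · exact h2
  obtain ⟨c, hc, x₀, h⟩ := Pool.Agent.X15.SysS.iso_sys σ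
    (hf3 _ (Or.inl rfl) (Or.inr rfl) (Or.inr rfl)) (fun _ => Polynomial.X)
    (fun _ => by simp) (fun _ => by simp) Λ hΛ 2 κ hκ
  refine ⟨c, hc, x₀, fun x hx => ?_⟩
  have h1 := h x hx
  have e0 : ∏ j : Fin 3, (x : ℝ) ^ (Polynomial.X : Polynomial ℤ).natDegree = (x : ℝ) ^ 3 := by
    rw [Polynomial.natDegree_X, pow_one, prod_const, card_univ, Fintype.card_fin]
  rw [e0] at h1
  refine le_trans ?_ h1
  apply Nat.cast_le.2
  rw [← Set.ncard_coe_finset]
  apply Set.ncard_le_ncard_of_injOn (fun u : ℕ × ℕ × ℕ => ![u.2.1, u.1, u.1 + u.2.2])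
  · rintro ⟨N, a, b⟩ ⟨hN, ha, hb, hloc, hcount⟩
    simp only at hN ha hb hloc hcount
    rw [mem_coe, mem_filter, Fintype.mem_piFinset]
    refine ⟨?_, ?_, lt_of_le_of_lt ?_ hcount⟩
    · refine hf3 _ ?_ ?_ ?_
      · rw [mem_Icc, Polynomial.natDegree_X, pow_one]
        show 1 ≤ a ∧ a ≤ 2 * x
        omega
      · rw [mem_Icc, Polynomial.natDegree_X, pow_one]
        show 1 ≤ N ∧ N ≤ 2 * x
        omega
      · rw [mem_Icc, Polynomial.natDegree_X, pow_one]
        show 1 ≤ N + b ∧ N + b ≤ 2 * x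
        omega
    · intro l hl
      obtain ⟨y, hy1, hy2, hy3, hy4⟩ := hloc l hl
      refine ⟨y, hy1, hf3 _ (fun hd => hy2 ?_) (fun hd => hy3 ?_) (fun hd => hy4 ?_)⟩
      · rw [hs0, Polynomial.eval_X] at hd
        have e2 : y + (a : ℤ) = (a : ℤ) + 1 * y := by ring
        rw [e2]
        exact hd
      · rw [hs1, Polynomial.eval_X] at hd
        have e2 : (N : ℤ) - y = (N : ℤ) + -1 * y := by ring
        rw [e2]
        exact hd
      · rw [hs2, Polynomial.eval_X] at hd
        have e2 : (N : ℤ) + b - y = ((N + b : ℕ) : ℤ) + -1 * y := by push_cast; ring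
        rw [e2]
        exact hd
    · apply Nat.cast_le.2
      rw [← Set.ncard_coe_finset]
      apply Set.ncard_le_ncard _ (summands_finite Λ N a b)
      intro p hp
      rw [mem_coe, mem_filter, mem_Icc] at hp
      obtain ⟨⟨hp1, -⟩, hp3, hp4⟩ := hp
      have h5 := hp4 0
      have h6 := hp4 1
      have h7 := hp4 2
      rw [hs0, Polynomial.eval_X] at h5
      rw [hs1, Polynomial.eval_X] at h6
      rw [hs2, Polynomial.eval_X] at h7
      have e5 : ((![a, N, N + b] (0 : Fin 3) : ℕ) : ℤ) = (a : ℤ) := rfl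
      have e6 : ((![a, N, N + b] (1 : Fin 3) : ℕ) : ℤ) = (N : ℤ) := rfl
      have e7 : ((![a, N, N + b] (2 : Fin 3) : ℕ) : ℤ) = ((N + b : ℕ) : ℤ) := rfl
      rw [e5] at h5
      rw [e6] at h6
      rw [e7] at h7
      have f5 : ((a : ℤ) + 1 * (p : ℤ)).toNat = p + a := by omega
      rw [f5] at h5
      have f6 : ((N : ℤ) + -1 * (p : ℤ)).toNat = N - p := by omega
      rw [f6] at h6
      have hpN := h6.pos
      have f7 : (((N + b : ℕ) : ℤ) + -1 * (p : ℤ)).toNat = (N - p) + b := by
        push_cast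
        omega
      rw [f7] at h7
      exact ⟨hp3, h5, N - p, by omega, h6, h7⟩
  · rintro ⟨N, a, b⟩ - ⟨N', a', b'⟩ - huu
    have h5 := congrFun huu 0
    have h6 := congrFun huu 1
    have h7 := congrFun huu 2
    have g5 : a = a' := h5
    have g6 : N = N' := h6
    have g7 : N + b = N' + b' := h7
    have g8 : b = b' := by omega
    rw [g5, g6, g8]

end Pool.Agent.Results.MP_c6d112_nt.MostTriples
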