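import Pool.Agent.X55.Fam.LinCor

/-!
# Sums of two almost prime twins with prescribed residues modulo a large prime

Let `P` be a large prime, and let `N ≤ P ^ B` be an ARBITRARY even integer, where `B` is arbitrary. For suitable signs
`σ`, `τ`, which depend on `N` modulo `3`, we consider the representations `N = n + (N - n)` for which
`n`, `n + 2 σ`, `N - n`, `N - n + 2 τ` are all almost primes, for the integers `n` of an interval `(M, M + H]` in
`[0, N]`
* of an ARBITRARY set `A` of residues modulo `P` whose Fourier coefficients are at most `Γ`, in ARBITRARY intervals of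
  a length `H ≤ P` with `|A| H ≥ Γ P ^ (1 + ε)`;
* of a coset of a subgroup `S` of the residues, in the intervals of a length `H ≤ P` with `|S| H ≥ P ^ (3 / 2 + ε)`;
* which are primitive roots of `P`, in the intervals of a length `H` with `P ^ (1 / 2 + ε) ≤ H ≤ P`;
* which are on the modular hyperbola `n m = a` modulo `P` with `n` and `m` in intervals of the lengths `H`, `K ≤ P` with
  `H K ≥ P ^ (3 / 2 + ε)`.
Each time the number of the `n` for which all the four numbers have a bounded number of prime factors, all greater than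
`P ^ δ`, has the expected order of magnitude `X V(P)`, where `X` is the expected number of the `n` and `V(P)` is the
product of the local factors over the primes up to `P`, and it is at least `c' X / log ^ 4 P`; the number of the `n` for
which the four numbers are primes is at most of the order `X V(P)`. The constants depend only on `ε`, `B`: everything is
uniform in `N`.

The proof combines a sieve which is uniform in the removed residue classes, incomplete sums, Weil's bound for the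
Kloosterman sums and a Moebius formula for primitive roots.
-/

set_option autoImplicit false

namespace Pool.Agent.Results.MP_c6d112_nt.ResiduesModuloPrimes

open Finset

/-- `m ≠ 0` has at most `r` prime factors, counted with multiplicity, all of them greater than `x`. -/
def AlmostPrime (r : ℕ) (x : ℝ) (m : ℕ) : Prop :=
  m ≠ 0 ∧ m.primeFactorsList.length ≤ r ∧ ∀ q : ℕ, q.Prime → q ∣ m → x < q

/-- the numbers `n`, `n + 2 σ`, `N - n`, `N - n + 2 τ` -/
def form (N : ℕ) (σ τ : ℤ) (n : ℕ) : Fin 4 → ℤ := ![(n : ℤ), n + 2 * σ, N - n, N - n + 2 * τ]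

/-- the number of the `n` in `(M, M + H]` with the property `R` for which the four numbers are almost primes -/
noncomputable def almost (N : ℕ) (σ τ : ℤ) (r : ℕ) (x : ℝ) (M H : ℕ) (R : ℕ → Prop) : ℕ :=
  Set.ncard {n : ℕ | M < n ∧ n ≤ M + H ∧ R n ∧ ∀ i, AlmostPrime r x (form N σ τ n i).natAbs}

/-- the number of the `n` in `(M, M + H]` with the property `R` for which the four numbers are primes -/
noncomputable def primes (N : ℕ) (σ τ : ℤ) (M H : ℕ) (R : ℕ → Prop) : ℕ :=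
  Set.ncard {n : ℕ | M < n ∧ n ≤ M + H ∧ R n ∧ ∀ i, (form N σ τ n i).natAbs.Prime}

/-- the product over the primes `q ≤ y` of `1 - ν(q) / q`, where `ν(q)` is the number of the residues `n` modulo `q` for
which one of the four numbers is divisible by `q` -/
noncomputable def V (N : ℕ) (σ τ : ℤ) (y : ℕ) : ℝ :=
  ∏ q ∈ (Icc 1 y).filter Nat.Prime, (1 - (Set.ncard {n : ℕ | n < q ∧ ∃ i, (q : ℤ) ∣ form N σ τ n i} : ℝ) / q)

/-- the bounds for the interval `(M, M + H]` and the property `R`, with the expected number `X` -/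
def Bounds (N : ℕ) (σ τ : ℤ) (P r : ℕ) (δ c C c' : ℝ) (B M H : ℕ) (R : ℕ → Prop) (X : ℝ) : Prop :=
  (N ≤ P ^ B → c * (X * V N σ τ P) ≤ almost N σ τ r ((P : ℝ) ^ δ) M H R ∧
    c' * X / Real.log P ^ 4 ≤ almost N σ τ r ((P : ℝ) ^ δ) M H R) ∧
  (primes N σ τ M H R : ℝ) ≤ C * (X * V N σ τ P)

/-- the coefficients of the forms -/
def ca : Fin 4 → ℤ := ![1, 1, -1, -1]

/-- the constants of the forms -/
def cb (N : ℕ) (σ τ : ℤ) : Fin 4 → ℤ := ![0, 2 * σ, N, N + 2 * τ]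

lemma form_eq (N : ℕ) (σ τ : ℤ) (n : ℕ) (i : Fin 4) : ca i * (n : ℤ) + cb N σ τ i = form N σ τ n i := by
  fin_cases i
  · show 1 * (n : ℤ) + 0 = n
    ring
  · show 1 * (n : ℤ) + 2 * σ = n + 2 * σ
    ring
  · show -1 * (n : ℤ) + N = N - n
    ring
  · show -1 * (n : ℤ) + (N + 2 * τ) = N - n + 2 * τ
    ring

lemma ca_ne (i : Fin 4) : ca i ≠ 0 := by
  fin_cases i <;> simp [ca]

lemma V_eq (N : ℕ) (σ τ : ℤ) (y : ℕ) : Pool.Agent.X55.Fam.VL ca (cb N σ τ) y = V N σ τ y := by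
  unfold Pool.Agent.X55.Fam.VL V
  simp only [form_eq]

lemma conv {N P r : ℕ} {σ τ : ℤ} {δ c C c1 : ℝ} {B M H : ℕ} {R : ℕ → Prop} {X : ℝ} (hP : 3 ≤ P)
    (hσ : σ = 1 ∨ σ = -1) (hτ : τ = 1 ∨ τ = -1) (hc : 0 < c) (hX : 0 ≤ X) (hN : M + H ≤ N)
    (hlo : c1 / Real.log P ^ 4 ≤ V N σ τ P)
    (h : Pool.Agent.X55.Fam.BothL ca (cb N σ τ) P r δ c C (B + 1) M H R X) :
    Bounds N σ τ P r δ c C (c * c1) B M H R X := by
  obtain ⟨h1, h2⟩ := h
  unfold Pool.Agent.X55.Fam.LoT at h1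
  unfold Pool.Agent.X55.Fam.UpL at h2
  rw [V_eq] at h1 h2
  simp only [form_eq] at h1 h2
  have hP1 : 1 ≤ P := by omega
  have hPB : 1 ≤ P ^ B := Nat.one_le_pow _ _ hP1
  have hBB : P ^ B + 2 ≤ P ^ (B + 1) := by
    rw [pow_succ]
    nlinarith
  refine ⟨fun hB => ?_, h2⟩
  have k1 := h1 (by omega) (fun i => by
    fin_cases i
    · show (1 : ℤ).natAbs ≤ _
      simp only [Int.natAbs_one]
      omega
    · show (1 : ℤ).natAbs ≤ _
      simp only [Int.natAbs_one]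
      omega
    · show (-1 : ℤ).natAbs ≤ _
      simp only [Int.natAbs_neg, Int.natAbs_one]
      omega
    · show (-1 : ℤ).natAbs ≤ _
      simp only [Int.natAbs_neg, Int.natAbs_one]
      omega) (fun i => by
    fin_cases i
    · show (0 : ℤ).natAbs ≤ _
      simp
    · show (2 * σ : ℤ).natAbs ≤ _
      rcases hσ with rfl | rfl <;> norm_num <;> omega
    · show ((N : ℤ)).natAbs ≤ _
      rw [Int.natAbs_natCast]
      omega
    · show ((N : ℤ) + 2 * τ).natAbs ≤ _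
      rcases hτ with rfl | rfl <;> omega)
  refine ⟨k1, le_trans ?_ k1⟩
  calc c * c1 * X / Real.log P ^ 4 = c * (X * (c1 / Real.log P ^ 4)) := by ring
    _ ≤ _ := by gcongr

/-- the signs -/
lemma signs (N : ℕ) (hN : Even N) : ∃ σ τ : ℤ, (σ = 1 ∨ σ = -1) ∧ (τ = 1 ∨ τ = -1) ∧
    ∀ q : ℕ, q.Prime → ∃ n : ℕ, ∀ i, ¬ (q : ℤ) ∣ ca i * (n : ℤ) + cb N σ τ i := by
  have key : ∃ σ τ : ℤ, (σ = 1 ∨ σ = -1) ∧ (τ = 1 ∨ τ = -1) ∧ ∃ n : ℕ, ∀ i, ¬ ((3 : ℕ) : ℤ) ∣ form N σ τ n i := by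
    have h3 : N % 3 = 0 ∨ N % 3 = 1 ∨ N % 3 = 2 := by omega
    rcases h3 with h | h | h
    · refine ⟨1, -1, Or.inl rfl, Or.inr rfl, 2, fun i => ?_⟩
      fin_cases i
      · show ¬ ((3 : ℕ) : ℤ) ∣ ((2 : ℕ) : ℤ)
        omega
      · show ¬ ((3 : ℕ) : ℤ) ∣ ((2 : ℕ) : ℤ) + 2 * 1
        omega
      · show ¬ ((3 : ℕ) : ℤ) ∣ (N : ℤ) - ((2 : ℕ) : ℤ)
        omega
      · show ¬ ((3 : ℕ) : ℤ) ∣ (N : ℤ) - ((2 : ℕ) : ℤ) + 2 * (-1)
        omega
    · refine ⟨1, 1, Or.inl rfl, Or.inl rfl, 2, fun i => ?_⟩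
      fin_cases i
      · show ¬ ((3 : ℕ) : ℤ) ∣ ((2 : ℕ) : ℤ)
        omega
      · show ¬ ((3 : ℕ) : ℤ) ∣ ((2 : ℕ) : ℤ) + 2 * 1
        omega
      · show ¬ ((3 : ℕ) : ℤ) ∣ (N : ℤ) - ((2 : ℕ) : ℤ)
        omega
      · show ¬ ((3 : ℕ) : ℤ) ∣ (N : ℤ) - ((2 : ℕ) : ℤ) + 2 * 1
        omega
    · refine ⟨-1, -1, Or.inr rfl, Or.inr rfl, 1, fun i => ?_⟩
      fin_cases i
      · show ¬ ((3 : ℕ) : ℤ) ∣ ((1 : ℕ) : ℤ)
        omega
      · show ¬ ((3 : ℕ) : ℤ) ∣ ((1 : ℕ) : ℤ) + 2 * (-1)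
        omega
      · show ¬ ((3 : ℕ) : ℤ) ∣ (N : ℤ) - ((1 : ℕ) : ℤ)
        omega
      · show ¬ ((3 : ℕ) : ℤ) ∣ (N : ℤ) - ((1 : ℕ) : ℤ) + 2 * (-1)
        omega
  obtain ⟨σ, τ, hσ, hτ, n3, hn3⟩ := key
  refine ⟨σ, τ, hσ, hτ, ?_⟩
  intro q hq
  simp only [form_eq]
  rcases Nat.lt_or_ge q 5 with h5 | h5
  · have : q = 2 ∨ q = 3 := by
      interval_cases q
      · exact absurd hq (by norm_num)
      · exact absurd hq (by norm_num)
      · exact Or.inl rfl
      · exact Or.inr rfl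
      · exact absurd hq (by norm_num)
    rcases this with rfl | rfl
    · obtain ⟨t, ht⟩ := hN
      refine ⟨1, fun i => ?_⟩
      fin_cases i
      · show ¬ ((2 : ℕ) : ℤ) ∣ ((1 : ℕ) : ℤ)
        omega
      · show ¬ ((2 : ℕ) : ℤ) ∣ ((1 : ℕ) : ℤ) + 2 * σ
        omega
      · show ¬ ((2 : ℕ) : ℤ) ∣ (N : ℤ) - ((1 : ℕ) : ℤ)
        omega
      · show ¬ ((2 : ℕ) : ℤ) ∣ (N : ℤ) - ((1 : ℕ) : ℤ) + 2 * τ
        omega
    · exact ⟨n3, hn3⟩
  · by_contra hcon
    push Not at hcon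
    choose u hu using hcon
    obtain ⟨x, hx, y, hy, hxy, he⟩ := Finset.exists_ne_map_eq_of_card_lt_of_maps_to
      (s := range 5) (t := (univ : Finset (Fin 4))) (by simp) (f := u) (fun a _ => Finset.mem_coe.2 (mem_univ (u a)))
    have h1 := hu x
    have h2 := hu y
    rw [← he] at h2
    have h3 : (q : ℤ) ∣ (x : ℤ) - y := by
      generalize u x = i at h1 h2
      fin_cases i
      · have := dvd_sub h1 h2
        have e : form N σ τ x 0 - form N σ τ y 0 = (x : ℤ) - y := by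
          show (x : ℤ) - y = _
          ring
        rw [← e]
        exact this
      · have := dvd_sub h1 h2
        have e : form N σ τ x 1 - form N σ τ y 1 = (x : ℤ) - y := by
          show ((x : ℤ) + 2 * σ) - (y + 2 * σ) = _
          ring
        rw [← e]
        exact this
      · have := dvd_sub h2 h1
        have e : form N σ τ y 2 - form N σ τ x 2 = (x : ℤ) - y := by
          show ((N : ℤ) - y) - (N - x) = _
          ring
        rw [← e]
        exact this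
      · have := dvd_sub h2 h1
        have e : form N σ τ y 3 - form N σ τ x 3 = (x : ℤ) - y := by
          show ((N : ℤ) - y + 2 * τ) - (N - x + 2 * τ) = _
          ring
        rw [← e]
        exact this
    have hx5 := mem_range.1 hx
    have hy5 := mem_range.1 hy
    obtain ⟨w, hw⟩ := h3
    have hw0 : w = 0 := by
      by_contra h0
      have h6 : (1 : ℤ) ≤ |w| := Int.one_le_abs h0
      have h7 : |(x : ℤ) - y| = q * |w| := by rw [hw, abs_mul, Nat.abs_cast]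
      have h8 : |(x : ℤ) - y| < 5 := by
        rw [abs_lt]
        constructor <;> omega
      have h9 : (5 : ℤ) ≤ q := by exact_mod_cast h5
      nlinarith
    rw [hw0, mul_zero] at hw
    omega

theorem result : ∀ ε : ℝ, 0 < ε → ∀ B : ℕ, ∃ (r : ℕ) (δ c C c' : ℝ) (P₀ : ℕ), 0 < δ ∧ 0 < c ∧ 0 < C ∧ 0 < c' ∧
    ∀ P : ℕ, P₀ ≤ P → ∀ [Fact P.Prime] (N : ℕ), Even N →
    ∃ σ τ : ℤ, (σ = 1 ∨ σ = -1) ∧ (τ = 1 ∨ τ = -1) ∧
      -- sets with small Fourier coefficients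
      (∀ (A : Finset (ZMod P)) (Γ : ℝ), 1 ≤ Γ →
        (∀ a : ZMod P, a ≠ 0 → ‖∑ x ∈ A, (ZMod.stdAddChar (a * x) : ℂ)‖ ≤ Γ) →
        ∀ M H : ℕ, H ≤ P → M + H ≤ N → Γ * (P : ℝ) ^ (1 + ε) ≤ A.card * H →
        Bounds N σ τ P r δ c C c' B M H (fun n => (n : ZMod P) ∈ A) (A.card * H / P)) ∧
      -- cosets of subgroups
      (∀ (S : Subgroup (ZMod P)ˣ) (b : (ZMod P)ˣ) (M H : ℕ), H ≤ P → M + H ≤ N → 
        (P : ℝ) ^ (3 / 2 + ε) ≤ (Nat.card S : ℝ) * H →
        Bounds N σ τ P r δ c C c' B M H (fun n => ∃ g ∈ S, (n : ZMod P) = (b : ZMod P) * (g : ZMod P))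
          (Nat.card S * H / P)) ∧
      -- primitive roots
      (∀ M H : ℕ, H ≤ P → M + H ≤ N → (P : ℝ) ^ (1 / 2 + ε) ≤ H →
        Bounds N σ τ P r δ c C c' B M H (fun n => orderOf (n : ZMod P) = P - 1) ((P - 1).totient * H / P)) ∧
      -- modular hyperbolas
      (∀ a : ZMod P, a ≠ 0 → ∀ M H L K : ℕ, H ≤ P → K ≤ P → M + H ≤ N → (P : ℝ) ^ (3 / 2 + ε) ≤ (H : ℝ) * K →
        Bounds N σ τ P r δ c C c' B M H (fun n => ∃ m : ℕ, L < m ∧ m ≤ L + K ∧ (n : ZMod P) * (m : ZMod P) = a)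
          (K * H / P)) := by
  intro ε hε B
  obtain ⟨r, δ, c, C, P₀, hδ, hc, hC, h⟩ := Pool.Agent.X55.Fam.res_lin 4 (by norm_num) ε hε (B + 1)
  obtain ⟨c1, hc1, hlo⟩ := Pool.Agent.X55.Fam.VQ_low 4 (by norm_num)
  refine ⟨r, δ, c, C, c * c1, max P₀ 3, hδ, hc, hC, by positivity, ?_⟩
  intro P hP _ N hN
  have hP3 : 3 ≤ P := (le_max_right _ _).trans hP
  obtain ⟨σ, τ, hσ, hτ, hadm⟩ := signs N hN
  have hV : c1 / Real.log P ^ 4 ≤ V N σ τ P := by
    rw [← V_eq, Pool.Agent.X55.Fam.VL_eq]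
    exact hlo _ (Pool.Agent.X55.Fam.adm_lin ca (cb N σ τ) hadm) P hP3
  obtain ⟨h1, h2, h3, h4⟩ := h P ((le_max_left _ _).trans hP) ca (cb N σ τ) ca_ne hadm
  exact ⟨σ, τ, hσ, hτ,
    fun A Γ hΓ hA M H hH hMN hAH => conv hP3 hσ hτ hc (by positivity) hMN hV (h1 A Γ hΓ hA M H hH hAH),
    fun S b M H hH hMN hGH => conv hP3 hσ hτ hc (by positivity) hMN hV (h2 S b M H hH hGH),
    fun M H hH hMN hPH => conv hP3 hσ hτ hc (by positivity) hMN hV (h3 M H hH hPH),
    fun a ha M H L K hH hK hMN hHK => conv hP3 hσ hτ hc (by positivity) hMN hV (h4 a ha M H L K hH hK hHK)⟩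

end Pool.Agent.Results.MP_c6d112_nt.ResiduesModuloPrimes
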