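import Mathlib
import Pool.Agent.X34.E.E22
import Pool.Agent.X34.E.E4

/-!
# A positive proportion of the even integers are sums of two primes followed by one common gap at most 212

The conjecture asks that every even integer beyond 4208 is the sum of two primes which have a prime
neighbour at distance 2. Here the distance 2 is replaced by one of the even numbers `h ≤ 212`, the same for both
primes, which are asked to be followed by a gap of length exactly `h` between consecutive primes, and all even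
integers are replaced by a positive proportion; the number of the representations is at least
`c x / (log x) ^ 90`. The same in residue classes.
-/

set_option autoImplicit false

open Finset Filter

namespace Pool.Agent.Results.MP_c6d112_nt.SumsWithGap212

/-- `p ≡ a (mod q)` is a prime and the next prime is `p + h` -/
def Starts (q a h p : ℕ) : Prop :=
  p ≡ a [MOD q] ∧ p.Prime ∧ (p + h).Prime ∧ ∀ m, p < m → m < p + h → ¬ m.Prime

/-- the number of the `p ≤ N` such that `p` and `N - p` are both primes of the residue class `a` modulo `q`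
followed by a gap of length `h` -/
noncomputable def reps (q a h N : ℕ) : ℕ :=
  Set.ncard {p : ℕ | p ≤ N ∧ Starts q a h p ∧ Starts q a h (N - p)}

/-- the number of the `N ≤ x` with at least `c x / (log x) ^ 90` representations -/
noncomputable def good (c : ℝ) (q a h x : ℕ) : ℕ :=
  Set.ncard {N : ℕ | N ≤ x ∧ c * (x / Real.log x ^ 90) ≤ (reps q a h N : ℝ)}

/-- For all `q ≥ 1` and `a` prime to `q` there is `c > 0` such that for all large `x` there is
`1 ≤ k ≤ 106` such that at least `c x` of the integers `N ≤ x` have at least `c x / (log x) ^ 90`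
representations `N = p + p'` where `p`, `p'` are primes of the class `a` modulo `q` and the next primes are
`p + h`, `p' + h`, `h = k lcm (2, q)`. One `k` has this property for arbitrarily large `x`. -/
theorem result (q a : ℕ) (hq : 1 ≤ q) (ha : a.Coprime q) :
    ∃ c : ℝ, 0 < c ∧
      (∀ᶠ x : ℕ in atTop, ∃ k : ℕ, 1 ≤ k ∧ k ≤ 106 ∧ c * x ≤ (good c q a (k * Nat.lcm 2 q) x : ℝ)) ∧
      ∃ k : ℕ, 1 ≤ k ∧ k ≤ 106 ∧ ∃ᶠ x : ℕ in atTop, c * x ≤ (good c q a (k * Nat.lcm 2 q) x : ℝ) := by
  obtain ⟨a', ha1, ha2⟩ := Pool.Agent.X34.E.lift_class q a hq ha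
  have hM0 : 0 < Nat.lcm 2 q := Nat.lcm_pos (by norm_num) hq
  have hM2 : 2 ∣ Nat.lcm 2 q := Nat.dvd_lcm_left 2 q
  have hMq : q ∣ Nat.lcm 2 q := Nat.dvd_lcm_right 2 q
  obtain ⟨c, hc, h⟩ := Pool.Agent.X34.E.sums_gaps Pool.Agent.X34.E.dhl45R (Nat.lcm 2 q) a' hM0 ha2
    Pool.Agent.X34.E.G45 Pool.Agent.X34.E.G45_card
    (fun p hp hpM => Pool.Agent.X34.E.G45_adm p hp (fun h2 => hpM (h2 ▸ hM2)))
  have hall : ∀ᶠ x : ℕ in atTop, ∃ k : ℕ, 1 ≤ k ∧ k ≤ 106 ∧
      c * x ≤ (good c q a (k * Nat.lcm 2 q) x : ℝ) := by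
    filter_upwards [h] with x hx
    obtain ⟨g, hg, g', hg', hgg, hx⟩ := hx
    have h106 := Pool.Agent.X34.E.G45_le g' hg'
    refine ⟨g' - g, by omega, by omega, hx.trans ?_⟩
    unfold good
    rw [Nat.cast_le]
    refine Set.ncard_le_ncard (fun N hN => ⟨hN.1, hN.2.trans ?_⟩)
      ((Set.finite_Iic x).subset fun N hN => hN.1)
    unfold reps
    rw [Nat.cast_le]
    have hcls : ∀ p, p ≡ a' [MOD Nat.lcm 2 q] → p ≡ a [MOD q] := fun p hp =>
      (hp.of_dvd hMq).trans ha1
    exact Set.ncard_le_ncard (fun p hp => ⟨hp.1, ⟨hcls _ hp.2.1.1, hp.2.1.2⟩, ⟨hcls _ hp.2.2.1, hp.2.2.2⟩⟩)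
      ((Set.finite_Iic N).subset fun p hp => hp.1)
  refine ⟨c, hc, hall, ?_⟩
  by_contra hcon
  push Not at hcon
  have h2 : ∀ k ∈ Icc 1 106, ∀ᶠ x : ℕ in atTop, ¬ c * x ≤ (good c q a (k * Nat.lcm 2 q) x : ℝ) := by
    intro k hk
    rw [mem_Icc] at hk
    have h3 := hcon k hk.1 hk.2
    filter_upwards [h3] with x hx
    exact not_le.2 hx
  have h3 := (Filter.eventually_all_finset _).2 h2
  obtain ⟨x, hx1, hx2⟩ := (hall.and h3).exists
  obtain ⟨k, hk1, hk2, hk3⟩ := hx1
  exact hx2 k (mem_Icc.2 ⟨hk1, hk2⟩) hk3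

end Pool.Agent.Results.MP_c6d112_nt.SumsWithGap212
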